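import Mathlib

/-!
# Fermat, Wilson and Lerch quotients

Definitions used by the hand-ins for `MP_e19bba_nt`, and Lerch's congruence in the form
`p ^ 2 * L_p = ∑ k ^ (p - 1) - p - (p - 1)!`.
-/

namespace Pool.Agent.Lerch

open Finset

/-- The Fermat quotient `q_p(k) = (k ^ (p - 1) - 1) / p`. -/
def fermatQ (p k : ℕ) : ℤ := ((k : ℤ) ^ (p - 1) - 1) / (p : ℤ)

/-- The Wilson quotient `w_p = ((p - 1)! + 1) / p`. -/
def wilsonQ (p : ℕ) : ℤ := (((p - 1).factorial : ℤ) + 1) / (p : ℤ)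

/-- The Lerch quotient `L_p = (∑_{k=1}^{p-1} q_p(k) - w_p) / p`. -/
def lerchQ (p : ℕ) : ℤ := ((∑ k ∈ Finset.Icc 1 (p - 1), fermatQ p k) - wilsonQ p) / (p : ℤ)

lemma mul_fermatQ {p k : ℕ} (hp : p.Prime) (hk : k ∈ Finset.Icc 1 (p - 1)) :
    (p : ℤ) * fermatQ p k = (k : ℤ) ^ (p - 1) - 1 := by
  rw [Finset.mem_Icc] at hk
  have hp2 := hp.two_le
  unfold fermatQ
  apply Int.mul_ediv_cancel'
  have hcop : IsCoprime (k : ℤ) (p : ℤ) := by
    rw [Nat.isCoprime_iff_coprime]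
    exact (Nat.coprime_of_lt_prime (by omega) (by omega) hp).symm
  have := Int.ModEq.pow_card_sub_one_eq_one hp hcop
  exact (Int.modEq_iff_dvd.mp this.symm)

lemma mul_wilsonQ {p : ℕ} (hp : p.Prime) :
    (p : ℤ) * wilsonQ p = ((p - 1).factorial : ℤ) + 1 := by
  unfold wilsonQ
  apply Int.mul_ediv_cancel'
  have := Fact.mk hp
  have := ZMod.wilsons_lemma p
  rw [← ZMod.intCast_zmod_eq_zero_iff_dvd _ p]
  push_cast
  rw [this]; ring

lemma prod_one_add_mul_modEq {ι : Type*} (s : Finset ι) (P : ℤ) (a : ι → ℤ) :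
    ∏ i ∈ s, (1 + P * a i) ≡ 1 + P * ∑ i ∈ s, a i [ZMOD P ^ 2] := by
  classical
  induction s using Finset.induction_on with
  | empty => simp
  | insert i s hi ih =>
    rw [Finset.prod_insert hi, Finset.sum_insert hi]
    have h1 := Int.ModEq.mul_left (1 + P * a i) ih
    refine h1.trans ?_
    rw [Int.modEq_iff_dvd]
    exact ⟨-(a i * ∑ i ∈ s, a i), by ring⟩

lemma one_sub_mul_pow_modEq (P w : ℤ) (n : ℕ) :
    (1 - P * w) ^ n ≡ 1 - n * (P * w) [ZMOD P ^ 2] := by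
  induction n with
  | zero => simp
  | succ n ih =>
    have h : (1 - P * w) ^ (n + 1) = (1 - P * w) ^ n * (1 - P * w) := pow_succ _ _
    rw [h]
    refine (Int.ModEq.mul_right _ ih).trans ?_
    rw [Int.modEq_iff_dvd]
    exact ⟨-(n * w ^ 2), by push_cast; ring⟩

/-- Lerch's congruence `∑ q_p(k) ≡ w_p (mod p)`. -/
lemma lerch_congruence {p : ℕ} (hp : p.Prime) (hp2 : p ≠ 2) :
    (p : ℤ) ∣ (∑ k ∈ Finset.Icc 1 (p - 1), fermatQ p k) - wilsonQ p := by
  have hp0 : (p : ℤ) ≠ 0 := by exact_mod_cast hp.ne_zero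
  have hodd : Even (p - 1) := by
    have := hp.eq_two_or_odd'
    rcases this with h | h
    · exact absurd h hp2
    · exact Nat.Odd.sub_odd h (by decide)
  -- product of the `k ^ (p-1)`
  have h1 : ∏ k ∈ Finset.Icc 1 (p - 1), (1 + (p : ℤ) * fermatQ p k)
      = ((p - 1).factorial : ℤ) ^ (p - 1) := by
    have : ∀ k ∈ Finset.Icc 1 (p - 1), (1 + (p : ℤ) * fermatQ p k) = ((k : ℕ) : ℤ) ^ (p - 1) := by
      intro k hk
      rw [mul_fermatQ hp hk]; ring
    rw [Finset.prod_congr rfl this, Finset.prod_pow]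
    congr 1
    have h0 : Finset.Icc 1 (p - 1) = Finset.Ico 1 (p - 1 + 1) := by
      ext x; simp only [Finset.mem_Icc, Finset.mem_Ico]; omega
    rw [← Finset.prod_Ico_id_eq_factorial, h0]
    push_cast
    rfl
  have h2 : ((p - 1).factorial : ℤ) = -(1 - (p : ℤ) * wilsonQ p) := by
    rw [mul_wilsonQ hp]; ring
  have h3 := prod_one_add_mul_modEq (Finset.Icc 1 (p - 1)) (p : ℤ) (fermatQ p)
  rw [h1, h2, hodd.neg_pow] at h3
  have h4 := (one_sub_mul_pow_modEq (p : ℤ) (wilsonQ p) (p - 1)).symm.trans h3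
  have hcast : ((p - 1 : ℕ) : ℤ) = (p : ℤ) - 1 := by
    rw [Nat.cast_sub hp.one_lt.le]; simp
  rw [hcast, Int.modEq_iff_dvd] at h4
  obtain ⟨c, hc⟩ := h4
  have h5 : (p : ℤ) * ((∑ k ∈ Finset.Icc 1 (p - 1), fermatQ p k) - wilsonQ p)
      = (p : ℤ) * ((p : ℤ) * (c - wilsonQ p)) := by
    linear_combination hc
  have h6 := mul_left_cancel₀ hp0 h5
  exact ⟨_, h6⟩

/-- The defining identity of the Lerch quotient, cleared of denominators. -/
lemma sq_mul_lerchQ {p : ℕ} (hp : p.Prime) (hp2 : p ≠ 2) :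
    (p : ℤ) ^ 2 * lerchQ p
      = (∑ k ∈ Finset.Icc 1 (p - 1), (k : ℤ) ^ (p - 1)) - p - ((p - 1).factorial : ℤ) := by
  have h1 : (p : ℤ) * lerchQ p = (∑ k ∈ Finset.Icc 1 (p - 1), fermatQ p k) - wilsonQ p := by
    unfold lerchQ
    exact Int.mul_ediv_cancel' (lerch_congruence hp hp2)
  have h2 : (p : ℤ) * ∑ k ∈ Finset.Icc 1 (p - 1), fermatQ p k
      = (∑ k ∈ Finset.Icc 1 (p - 1), (k : ℤ) ^ (p - 1)) - (p - 1) := by
    rw [Finset.mul_sum, Finset.sum_congr rfl (fun k hk => mul_fermatQ hp hk),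
      Finset.sum_sub_distrib]
    simp [Nat.cast_sub hp.one_lt.le]
  have h3 := mul_wilsonQ hp
  calc (p : ℤ) ^ 2 * lerchQ p = p * (p * lerchQ p) := by ring
    _ = p * (∑ k ∈ Finset.Icc 1 (p - 1), fermatQ p k) - p * wilsonQ p := by rw [h1]; ring
    _ = _ := by rw [h2, h3]; ring

end Pool.Agent.Lerch
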