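import Mathlib
import Pool.Agent.Lerch.Basic

/-!
# Small prime divisors of Lerch quotients
-/

namespace Pool.Agent.Lerch

open Finset

lemma sum_pow_zmod (q : ℕ) [Fact q.Prime] (i : ℕ) (hi : i ≠ 0) :
    ∑ x : ZMod q, x ^ i = if q - 1 ∣ i then -1 else 0 := by
  classical
  let φ : (ZMod q)ˣ ↪ ZMod q := ⟨fun x ↦ x, Units.val_injective⟩
  have hu : univ.map φ = univ \ {0} := by
    ext x
    simpa only [mem_map, mem_univ, Function.Embedding.coeFn_mk, true_and, mem_sdiff,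
      mem_singleton, φ] using! isUnit_iff_ne_zero
  calc
    ∑ x : ZMod q, x ^ i = ∑ x ∈ univ \ {(0 : ZMod q)}, x ^ i := by
      rw [← sum_sdiff ({0} : Finset (ZMod q)).subset_univ, sum_singleton, zero_pow hi, add_zero]
    _ = ∑ x : (ZMod q)ˣ, (x ^ i : ZMod q) := by simp [φ, ← hu, univ.sum_map φ]
    _ = _ := by
      have := FiniteField.sum_pow_units (ZMod q) i
      rw [ZMod.card] at this
      exact this

lemma sum_range_cast (q : ℕ) [NeZero q] (f : ZMod q → ZMod q) :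
    ∑ k ∈ range q, f (k : ZMod q) = ∑ x : ZMod q, f x := by
  refine Finset.sum_nbij' (fun k => (k : ZMod q)) (fun x => ZMod.val x) ?_ ?_ ?_ ?_ ?_
  · intro k _; exact mem_univ _
  · intro x _; exact mem_range.mpr (ZMod.val_lt x)
  · intro k hk; exact ZMod.val_cast_of_lt (mem_range.mp hk)
  · intro x _; exact ZMod.natCast_zmod_val x
  · intro k _; rfl

lemma sum_range_mul_add (q t r : ℕ) [NeZero q] (f : ZMod q → ZMod q) :
    ∑ k ∈ range (q * t + r), f (k : ZMod q)
      = t * (∑ x : ZMod q, f x) + ∑ k ∈ range r, f (k : ZMod q) := by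
  induction t with
  | zero => simp
  | succ t ih =>
    have h : q * (t + 1) + r = q + (q * t + r) := by ring
    rw [h, sum_range_add]
    simp only [Nat.cast_add, CharP.cast_eq_zero, zero_add]
    rw [ih, sum_range_cast]
    push_cast; ring

/-- The power sum in `ZMod q`. -/
lemma sum_pow_range (q : ℕ) [Fact q.Prime] (t r i : ℕ) (hi : i ≠ 0) :
    ∑ k ∈ range (q * t + r), (k : ZMod q) ^ i
      = t * (if q - 1 ∣ i then -1 else 0) + ∑ k ∈ range r, (k : ZMod q) ^ i := by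
  have := sum_range_mul_add q t r (fun x => x ^ i)
  rw [this, sum_pow_zmod q i hi]

/-- `p ^ 2 L_p` modulo a prime `q < p`. -/
lemma sq_mul_lerchQ_zmod {p q : ℕ} (hp : p.Prime) (hp2 : p ≠ 2) (hq : q.Prime) (hqp : q < p) :
    ((p : ZMod q)) ^ 2 * ((lerchQ p : ℤ) : ZMod q)
      = (∑ k ∈ range p, (k : ZMod q) ^ (p - 1)) - p := by
  have h := congrArg (fun z : ℤ => (z : ZMod q)) (sq_mul_lerchQ hp hp2)
  push_cast at h
  rw [h]
  have hf : (((p - 1).factorial : ℕ) : ZMod q) = 0 := by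
    rw [ZMod.natCast_eq_zero_iff]
    exact (hq.dvd_factorial).mpr (by omega)
  rw [hf, sub_zero]
  congr 1
  have hpos : p = (p - 1) + 1 := by have := hp.two_le; omega
  have h0 : range p = insert 0 (Icc 1 (p - 1)) := by
    ext x; simp only [mem_range, mem_insert, mem_Icc]; omega
  rw [h0, sum_insert (by simp)]
  have : (p - 1) ≠ 0 := by have := hp.two_le; omega
  simp [this]

lemma dvd_lerchQ_iff {p q : ℕ} (hp : p.Prime) (hp2 : p ≠ 2) (hq : q.Prime) (hqp : q < p) :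
    (q : ℤ) ∣ lerchQ p ↔ (∑ k ∈ range p, (k : ZMod q) ^ (p - 1)) - (p : ZMod q) = 0 := by
  have := Fact.mk hq
  rw [← sq_mul_lerchQ_zmod hp hp2 hq hqp, ← ZMod.intCast_zmod_eq_zero_iff_dvd _ q]
  have hpq : (p : ZMod q) ≠ 0 := by
    rw [Ne, ZMod.natCast_eq_zero_iff]
    intro hd
    rcases (Nat.dvd_prime hp).mp hd with h | h
    · exact hq.one_lt.ne' h
    · omega
  simp [hpq]

/-- **Case 1**: `(q - 1) ∤ (p - 1)`. -/
theorem dvd_lerchQ_iff_of_not_dvd {p q : ℕ} (hp : p.Prime) (hp2 : p ≠ 2) (hq : q.Prime)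
    (hqp : q < p) (h : ¬ (q - 1) ∣ (p - 1)) :
    (q : ℤ) ∣ lerchQ p ↔ (q : ℤ) ∣ ∑ i ∈ Icc 1 (q - p % q), ((i : ℤ) ^ (p - 1) - 1) := by
  have := Fact.mk hq
  rw [dvd_lerchQ_iff hp hp2 hq hqp, ← ZMod.intCast_zmod_eq_zero_iff_dvd _ q]
  have he : p - 1 ≠ 0 := by have := hp.two_le; omega
  have hodd : Even (p - 1) := by
    rcases hp.eq_two_or_odd' with h | h
    · exact absurd h hp2
    · exact Nat.Odd.sub_odd h (by decide)
  have hr : p % q < q := Nat.mod_lt _ hq.pos
  have h1 := sum_pow_range q (p / q) (p % q) (p - 1) he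
  rw [Nat.div_add_mod, if_neg h, mul_zero, zero_add] at h1
  rw [h1]
  -- full sum vanishes
  have h2 := sum_pow_range q 1 0 (p - 1) he
  rw [if_neg h] at h2
  simp only [mul_one, add_zero, Nat.cast_one, mul_zero, range_zero, sum_empty] at h2
  have h3 : ∑ k ∈ range q, (k : ZMod q) ^ (p - 1)
      = ∑ k ∈ range (p % q), (k : ZMod q) ^ (p - 1)
        + ∑ i ∈ Icc 1 (q - p % q), (i : ZMod q) ^ (p - 1) := by
    have hq' : range q = range (p % q + (q - p % q)) := by congr 1; omega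
    rw [hq', sum_range_add]
    congr 1
    refine Finset.sum_nbij' (fun k => q - p % q - k) (fun i => q - p % q - i) ?_ ?_ ?_ ?_ ?_
    · intro k hk; simp only [mem_range] at hk; simp only [mem_Icc]; omega
    · intro k hk; simp only [mem_Icc] at hk; simp only [mem_range]; omega
    · intro k hk; simp only [mem_range] at hk; omega
    · intro k hk; simp only [mem_Icc] at hk; omega
    · intro k hk
      simp only [mem_range] at hk
      have h5 : ((p % q + k : ℕ) : ZMod q) = -((q - p % q - k : ℕ) : ZMod q) := by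
        rw [eq_neg_iff_add_eq_zero, ← Nat.cast_add]
        have : p % q + k + (q - p % q - k) = q := by omega
        rw [this]; simp
      rw [h5, hodd.neg_pow]
  rw [h2] at h3
  have h4 : (p : ZMod q) = -((q - p % q : ℕ) : ZMod q) := by
    rw [eq_neg_iff_add_eq_zero, ← Nat.cast_add, ZMod.natCast_eq_zero_iff]
    refine ⟨p / q + 1, ?_⟩
    have := Nat.div_add_mod p q
    rw [mul_add]; omega
  have h6 : ∑ k ∈ range (p % q), (k : ZMod q) ^ (p - 1)
      = -∑ i ∈ Icc 1 (q - p % q), (i : ZMod q) ^ (p - 1) := by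
    linear_combination -h3
  rw [h6, h4]
  push_cast
  rw [Finset.sum_sub_distrib]
  simp only [sum_const, Nat.card_Icc, nsmul_eq_mul, mul_one]
  have h7 : q - p % q + 1 - 1 = q - p % q := by omega
  rw [h7]
  constructor
  · intro h; linear_combination -h
  · intro h; linear_combination -h

/-- **Case 2**: `(q - 1) ∣ (p - 1)`. -/
theorem dvd_lerchQ_iff_of_dvd {p q : ℕ} (hp : p.Prime) (hp2 : p ≠ 2) (hq : q.Prime)
    (hqp : q < p) (h : (q - 1) ∣ (p - 1)) :
    (q : ℤ) ∣ lerchQ p ↔ q ∣ p / q + 1 := by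
  have := Fact.mk hq
  rw [dvd_lerchQ_iff hp hp2 hq hqp]
  have he : p - 1 ≠ 0 := by have := hp.two_le; omega
  have hr : p % q < q := Nat.mod_lt _ hq.pos
  have hr0 : p % q ≠ 0 := by
    intro h0
    rcases (Nat.dvd_prime hp).mp (Nat.dvd_of_mod_eq_zero h0) with h | h
    · exact hq.one_lt.ne' h
    · omega
  have h1 := sum_pow_range q (p / q) (p % q) (p - 1) he
  rw [Nat.div_add_mod, if_pos h] at h1
  rw [h1]
  have h2 : ∑ k ∈ range (p % q), (k : ZMod q) ^ (p - 1) = (p % q : ℕ) - 1 := by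
    obtain ⟨r, hr'⟩ : ∃ r, p % q = r + 1 := ⟨p % q - 1, by omega⟩
    rw [hr', sum_range_succ']
    have h3 : ∀ k ∈ range r, ((k + 1 : ℕ) : ZMod q) ^ (p - 1) = 1 := by
      intro k hk
      obtain ⟨c, hc⟩ := h
      rw [hc, pow_mul, ZMod.pow_card_sub_one_eq_one, one_pow]
      rw [Ne, ZMod.natCast_eq_zero_iff]
      intro hd
      have := Nat.le_of_dvd (by omega) hd
      have := mem_range.mp hk
      omega
    rw [sum_congr rfl h3]
    simp [he]
  rw [h2]
  have h4 : (p : ZMod q) = (p % q : ℕ) := by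
    conv_lhs => rw [← Nat.div_add_mod p q]
    push_cast; simp
  rw [h4, ← ZMod.natCast_eq_zero_iff]
  push_cast
  constructor
  · intro h; linear_combination -h
  · intro h; linear_combination -h

/-- Growth: `L_p > p + 1` for `p ≥ 7`. -/
lemma lt_lerchQ {p : ℕ} (hp : p.Prime) (h7 : 7 ≤ p) : ((p : ℤ) + 1) < lerchQ p := by
  have hp2 : p ≠ 2 := by omega
  have h := sq_mul_lerchQ hp hp2
  obtain ⟨m, rfl⟩ : ∃ m, p = m + 7 := ⟨p - 7, by omega⟩
  have h1 : ((m + 6 : ℕ) : ℤ) ^ (m + 7 - 1) ≤ ∑ k ∈ Icc 1 (m + 7 - 1), (k : ℤ) ^ (m + 7 - 1) := by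
    have := Finset.single_le_sum (f := fun k : ℕ => (k : ℤ) ^ (m + 7 - 1)) (s := Icc 1 (m + 7 - 1))
      (fun i _ => by positivity) (a := m + 6) (by simp)
    simpa using this
  have h2 : ((m + 7 - 1).factorial : ℤ) ≤ ((m + 6 : ℕ) : ℤ) ^ (m + 5) := by
    have : (m + 7 - 1).factorial ≤ (m + 6) ^ (m + 5) := by
      have h3 : (m + 7 - 1) = (m + 5) + 1 := by omega
      rw [h3, Nat.factorial_succ, mul_comm]
      have h4 : (m + 5).factorial ≤ (m + 6) ^ (m + 4) := by
        have h5 : (m + 5) = (m + 4) + 1 := by omega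
        calc (m + 5).factorial = ∏ x ∈ Ico 1 (m + 5 + 1), x := (prod_Ico_id_eq_factorial _).symm
          _ = ∏ x ∈ Ico 2 (m + 5 + 1), x := by
            rw [prod_eq_prod_Ico_succ_bot (by omega)]; simp
          _ ≤ ∏ x ∈ Ico 2 (m + 5 + 1), (m + 6) := by
            apply prod_le_prod' 
            intro i hi; simp only [mem_Ico] at hi; omega
          _ = (m + 6) ^ (m + 4) := by
            rw [prod_const, Nat.card_Ico]; congr 1
      calc (m + 5).factorial * (m + 5 + 1) ≤ (m + 6) ^ (m + 4) * (m + 6) :=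
            Nat.mul_le_mul h4 (by omega)
        _ = (m + 6) ^ (m + 5) := by rw [← pow_succ]
    exact_mod_cast this
  have h8 : ((m + 6 : ℕ) : ℤ) ^ 5 ≤ ((m + 6 : ℕ) : ℤ) ^ (m + 5) := by
    apply pow_le_pow_right₀ (by push_cast; omega) (by omega)
  have h9 : ((m + 6 : ℕ) : ℤ) ^ (m + 7 - 1) = ((m + 6 : ℕ) : ℤ) ^ (m + 5) * (m + 6 : ℕ) := by
    rw [← pow_succ]; congr 1
  push_cast at *
  by_contra hcon
  push Not at hcon
  have h10 : ((m : ℤ) + 7) ^ 2 * lerchQ (m + 7) ≤ ((m : ℤ) + 7) ^ 2 * ((m : ℤ) + 7 + 1) := by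
    gcongr
  have hm : (0 : ℤ) ≤ m := by positivity
  set M : ℤ := (m : ℤ)
  set A : ℤ := (M + 6) ^ (m + 5)
  have h11 : A * (M + 6) - A - (M + 7) ≤ (M + 7) ^ 2 * (M + 7 + 1) := by
    rw [h] at h10
    linarith [h1, h2, h9]
  have h12 : (M + 6) ^ 5 * (M + 5) ≤ A * (M + 5) := by
    apply mul_le_mul_of_nonneg_right h8 (by omega)
  nlinarith [h11, h12, hm, mul_nonneg hm hm, mul_nonneg hm (mul_nonneg hm hm), pow_nonneg hm 4, pow_nonneg hm 5, pow_nonneg hm 6]

end Pool.Agent.Lerch
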