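import Mathlib
import Pool.Agent.Lerch.Small

/-!
# Prime values of Lerch quotients force `p + 1` to be a squarefree 2-Knoedel number
-/

namespace Pool.Agent.Lerch

open Finset

lemma lerchQ_three : lerchQ 3 = 0 := by
  unfold lerchQ fermatQ wilsonQ
  decide

lemma lerchQ_five : lerchQ 5 = 13 := by
  unfold lerchQ fermatQ wilsonQ
  decide

lemma lerchQ_seven : lerchQ 7 = 1356 := by
  unfold lerchQ fermatQ wilsonQ
  decide

lemma odd_of {p : ℕ} (hp : p.Prime) (hp2 : p ≠ 2) : Odd p := by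
  rcases hp.eq_two_or_odd' with h | h
  · exact absurd h hp2
  · exact h

lemma lt_of_dvd_succ {p q : ℕ} (hp : p.Prime) (hp2 : p ≠ 2) (hq : q.Prime) (h : q ∣ p + 1) :
    q < p := by
  have hodd := odd_of hp hp2
  have h3 : 3 ≤ p := by have := hp.two_le; omega
  obtain ⟨c, hc⟩ := h
  rcases Nat.lt_or_ge c 2 with h1 | h1
  · interval_cases c
    · omega
    · have hq2 : q = p + 1 := by omega
      obtain ⟨k, hk⟩ := hodd
      have : 2 ∣ q := ⟨k + 1, by omega⟩
      have := (Nat.prime_dvd_prime_iff_eq Nat.prime_two hq).mp this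
      omega
  · nlinarith

/-- A prime `q ∣ p + 1` with `(q - 1) ∤ (p - 1)` divides the Lerch quotient of `p`. -/
theorem dvd_lerchQ_of_dvd_succ {p q : ℕ} (hp : p.Prime) (hp2 : p ≠ 2) (hq : q.Prime)
    (h : q ∣ p + 1) (hn : ¬ (q - 1) ∣ (p - 1)) : (q : ℤ) ∣ lerchQ p := by
  have hqp := lt_of_dvd_succ hp hp2 hq h
  rw [dvd_lerchQ_iff_of_not_dvd hp hp2 hq hqp hn]
  have h1 : q - p % q = 1 := by
    have hr : p % q < q := Nat.mod_lt _ hq.pos
    have h2 : q ∣ p % q + 1 := by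
      have : p + 1 = q * (p / q) + (p % q + 1) := by rw [← add_assoc, Nat.div_add_mod]
      rw [this] at h
      exact (Nat.dvd_add_right (Dvd.intro _ rfl)).mp h
    have := Nat.le_of_dvd (by omega) h2
    omega
  rw [h1]
  simp

/-- A prime `q` with `q ^ 2 ∣ p + 1` divides the Lerch quotient of `p`. -/
theorem dvd_lerchQ_of_sq_dvd_succ {p q : ℕ} (hp : p.Prime) (hp2 : p ≠ 2) (hq : q.Prime)
    (h : q * q ∣ p + 1) : (q : ℤ) ∣ lerchQ p := by
  have hqp := lt_of_dvd_succ hp hp2 hq ((Dvd.intro _ rfl).trans h)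
  by_cases hn : (q - 1) ∣ (p - 1)
  · rw [dvd_lerchQ_iff_of_dvd hp hp2 hq hqp hn]
    obtain ⟨t, ht⟩ := h
    have hq0 := hq.two_le
    have htpos : 1 ≤ t := by
      rcases Nat.eq_zero_or_pos t with h0 | h0
      · rw [h0] at ht; omega
      · exact h0
    obtain ⟨s, rfl⟩ : ∃ s, t = s + 1 := ⟨t - 1, by omega⟩
    have hp' : p = q * (q * s + (q - 1)) + (q - 1) := by
      obtain ⟨r, rfl⟩ : ∃ r, q = r + 2 := ⟨q - 2, by omega⟩
      have h1 : r + 2 - 1 = r + 1 := by omega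
      rw [h1]
      have h2 : p + 1 = (r + 2) * ((r + 2) * s + (r + 1)) + (r + 1) + 1 := by rw [ht]; ring
      omega
    have hdiv : p / q = q * s + (q - 1) := by
      rw [hp', Nat.mul_add_div (by omega), Nat.div_eq_of_lt (by omega)]; omega
    rw [hdiv]
    refine ⟨s + 1, ?_⟩
    rw [mul_add]; omega
  · exact dvd_lerchQ_of_dvd_succ hp hp2 hq ((Dvd.intro _ rfl).trans h) hn

/-- If `L_p` is a prime number and the prime `q < p` divides `L_p`, contradiction. -/
lemma not_prime_of_dvd {p q : ℕ} (hp : p.Prime) (hp2 : p ≠ 2) (hq : q.Prime)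
    (hqp : q < p) (h : (q : ℤ) ∣ lerchQ p) (l : ℕ) (hl : l.Prime) : lerchQ p ≠ l := by
  intro he
  rw [he] at h
  have h1 : q ∣ l := by exact_mod_cast h
  have h2 : q = l := (Nat.prime_dvd_prime_iff_eq hq hl).mp h1
  rcases Nat.lt_or_ge p 7 with h7 | h7
  · have h3 := hp.two_le
    interval_cases p
    · exact hp2 rfl
    · rw [lerchQ_three] at he
      have := hl.pos
      omega
    · exact absurd hp (by decide)
    · rw [lerchQ_five] at he; omega
    · exact absurd hp (by decide)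
  · have h3 := lt_lerchQ hp h7
    rw [he] at h3
    omega

/-- **Main structural theorem.** -/
theorem knodel_of_prime {p : ℕ} (hp : p.Prime) (hp2 : p ≠ 2) {l : ℕ} (hl : l.Prime)
    (h : lerchQ p = l) :
    Squarefree (p + 1) ∧ (∀ q : ℕ, q.Prime → q ∣ p + 1 → (q - 1) ∣ (p - 1)) ∧
      ∀ q : ℕ, q.Prime → q < p → (q - 1) ∣ (p - 1) → ¬ q ∣ p / q + 1 := by
  refine ⟨?_, ?_, ?_⟩
  · rw [Nat.squarefree_iff_prime_squarefree]
    intro q hq hd
    exact not_prime_of_dvd hp hp2 hq (lt_of_dvd_succ hp hp2 hq ((Dvd.intro _ rfl).trans hd))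
      (dvd_lerchQ_of_sq_dvd_succ hp hp2 hq hd) l hl h
  · intro q hq hd
    by_contra hn
    exact not_prime_of_dvd hp hp2 hq (lt_of_dvd_succ hp hp2 hq hd)
      (dvd_lerchQ_of_dvd_succ hp hp2 hq hd hn) l hl h
  · intro q hq hqp hd hn
    exact not_prime_of_dvd hp hp2 hq hqp
      ((dvd_lerchQ_iff_of_dvd hp hp2 hq hqp hd).mpr hn) l hl h

end Pool.Agent.Lerch
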