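import Mathlib
import Pool.Agent.Lib.Sieve.TwoDim
import Pool.Agent.Lerch.Knodel

/-!
# Counting primes with a prime Lerch quotient
-/

namespace Pool.Agent.Lerch

open Finset Pool.Agent.Lib.Sieve

noncomputable section

/-! ### Part A: `q` and `2q - 1` both prime -/

/-- The removed classes: `0` and `(p+1)/2`. -/
def om (p : ℕ) : Finset ℕ := {0, (p + 1) / 2}

lemma om_spec (p : ℕ) (hp : p.Prime) (hp2 : p ≠ 2) : om p ⊆ range p ∧ (om p).card = 2 := by
  have h3 : 3 ≤ p := by have := hp.two_le; omega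
  constructor
  · intro r hr
    unfold om at hr
    rw [mem_insert, mem_singleton] at hr
    rw [mem_range]
    omega
  · unfold om
    rw [Finset.card_pair]
    omega

lemma not_mem_om {p q : ℕ} (hp : p.Prime) (hp2 : p ≠ 2) (h1 : ¬ p ∣ q) (h2 : ¬ p ∣ 2 * q - 1)
    (hq : 1 ≤ q) : q % p ∉ om p := by
  unfold om
  rw [mem_insert, mem_singleton]
  push Not
  refine ⟨fun h => h1 (Nat.dvd_of_mod_eq_zero h), fun h => h2 ?_⟩
  have hodd := odd_of hp hp2
  obtain ⟨k, hk⟩ := hodd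
  have h3 : (p + 1) / 2 = k + 1 := by omega
  rw [h3] at h
  have h4 := Nat.div_add_mod q p
  refine ⟨2 * (q / p) + 1, ?_⟩
  rw [h] at h4
  have e : p * (2 * (q / p) + 1) = 2 * (p * (q / p)) + p := by ring
  omega

open Classical in
lemma countA (x T : ℕ) (hT : 1 ≤ T) :
    (((Icc 1 x).filter (fun p => p.Prime ∧ ∃ q : ℕ, q.Prime ∧ p + 1 = 2 * q)).card : ℝ) ≤
      8 * zc ^ 2 * x / (Real.log (T + 1)) ^ 2 + 8 * (T : ℝ) ^ 10 + (T : ℝ) ^ 2 := by
  have h := two_dim_sieve om om_spec 1 x T hT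
  have h1 : ((Icc 1 x).filter (fun p => p.Prime ∧ ∃ q : ℕ, q.Prime ∧ p + 1 = 2 * q)).card ≤
      (((Ico 1 (1 + x)).filter (fun n => ∀ p : ℕ, p.Prime → p ≠ 2 → p ≤ T ^ 2 →
        n % p ∉ om p)) ∪ Icc 1 (T ^ 2)).card := by
    refine Finset.card_le_card_of_injOn (fun p => (p + 1) / 2) ?_ ?_
    · intro p hp
      simp only [coe_filter, mem_Icc, Set.mem_ofPred_eq] at hp
      obtain ⟨⟨hp1, hpx⟩, hpp, q, hq, hpq⟩ := hp
      have hq1 : (p + 1) / 2 = q := by omega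
      have hq2 := hq.two_le
      simp only [coe_union, coe_filter, mem_Ico, coe_Icc, Set.mem_union, Set.mem_ofPred_eq,
        Set.mem_Icc, hq1]
      by_cases hqT : q ≤ T ^ 2
      · right; exact ⟨by omega, hqT⟩
      · left
        refine ⟨⟨by omega, by omega⟩, ?_⟩
        intro r hr hr2 hrT
        apply not_mem_om hr hr2
        · intro hd
          have := (Nat.prime_dvd_prime_iff_eq hr hq).mp hd
          omega
        · intro hd
          have h2 : 2 * q - 1 = p := by omega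
          rw [h2] at hd
          have := (Nat.prime_dvd_prime_iff_eq hr hpp).mp hd
          omega
        · omega
    · intro p hp p' hp' hpp'
      simp only [coe_filter, mem_Icc, Set.mem_ofPred_eq] at hp hp' hpp'
      obtain ⟨_, _, q, _, hq⟩ := hp
      obtain ⟨_, _, q', _, hq'⟩ := hp'
      omega
  have h2 := h1.trans (Finset.card_union_le _ _)
  have h3 : (((Icc 1 x).filter (fun p => p.Prime ∧ ∃ q : ℕ, q.Prime ∧ p + 1 = 2 * q)).card : ℝ) ≤
      (((Ico 1 (1 + x)).filter (fun n => ∀ p : ℕ, p.Prime → p ≠ 2 → p ≤ T ^ 2 →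
        n % p ∉ om p)).card : ℝ) + ((Icc 1 (T ^ 2)).card : ℝ) := by
    exact_mod_cast h2
  refine h3.trans ?_
  have h4 : ((Icc 1 (T ^ 2)).card : ℝ) = (T : ℝ) ^ 2 := by
    rw [Nat.card_Icc]
    have : T ^ 2 + 1 - 1 = T ^ 2 := by omega
    rw [this]; push_cast; rfl
  rw [h4]
  gcongr

/-! ### Part B: a large prime factor `Q > y` -/

lemma sum_one_div_le (y X : ℕ) (hy : 1 ≤ y) :
    ∑ Q ∈ Ico (y + 1) X, 1 / ((Q : ℝ) * (Q - 1)) ≤ 1 / y := by
  have h : ∀ n : ℕ, ∑ Q ∈ Ico (y + 1) (y + 1 + n), 1 / ((Q : ℝ) * (Q - 1))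
      = 1 / y - 1 / (y + n) := by
    intro n
    induction n with
    | zero => simp
    | succ n ih =>
      rw [← add_assoc, Finset.sum_Ico_succ_top (by omega), ih]
      have h1 : (0 : ℝ) < y := by exact_mod_cast hy
      have h2 : (0 : ℝ) < y + n := by positivity
      push_cast
      have h3 : (y : ℝ) + 1 + n - 1 = y + n := by ring
      rw [h3]
      field_simp
      ring
  rcases Nat.lt_or_ge X (y + 1) with h1 | h1
  · rw [Finset.Ico_eq_empty (by omega)]; simp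
  · obtain ⟨n, rfl⟩ := Nat.exists_eq_add_of_le h1
    rw [h]
    have : (0 : ℝ) ≤ 1 / (y + n) := by positivity
    linarith

open Classical in
lemma countB (X y : ℕ) (hy : 1 ≤ y) :
    (((Icc 1 X).filter (fun n => ∃ Q : ℕ, y < Q ∧ ∃ t : ℕ, 1 ≤ t ∧ n = Q * (2 + t * (Q - 1)))).card : ℝ)
      ≤ X / y := by
  have h1 : ((Icc 1 X).filter (fun n => ∃ Q : ℕ, y < Q ∧ ∃ t : ℕ, 1 ≤ t ∧ n = Q * (2 + t * (Q - 1))))
      ⊆ (Ico (y + 1) (X + 1)).biUnion (fun Q => (Icc 1 (X / (Q * (Q - 1)))).image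
        (fun t => Q * (2 + t * (Q - 1)))) := by
    intro n hn
    rw [mem_filter, mem_Icc] at hn
    obtain ⟨⟨hn1, hnX⟩, Q, hQ, t, ht, rfl⟩ := hn
    rw [mem_biUnion]
    have hQ1 : 0 < Q * (Q - 1) := Nat.mul_pos (by omega) (by omega)
    have h2 : Q ≤ Q * (2 + t * (Q - 1)) := Nat.le_mul_of_pos_right _ (by omega)
    refine ⟨Q, by rw [mem_Ico]; omega, ?_⟩
    rw [mem_image]
    refine ⟨t, ?_, rfl⟩
    rw [mem_Icc]
    refine ⟨ht, ?_⟩
    rw [Nat.le_div_iff_mul_le hQ1]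
    calc t * (Q * (Q - 1)) = Q * (t * (Q - 1)) := by ring
      _ ≤ Q * (2 + t * (Q - 1)) := Nat.mul_le_mul_left _ (by omega)
      _ ≤ X := hnX
  have h2 : (((Icc 1 X).filter (fun n => ∃ Q : ℕ, y < Q ∧ ∃ t : ℕ, 1 ≤ t ∧
      n = Q * (2 + t * (Q - 1)))).card : ℝ) ≤ ∑ Q ∈ Ico (y + 1) (X + 1), ((X / (Q * (Q - 1)) : ℕ) : ℝ) := by
    have h3 := (Finset.card_le_card h1).trans Finset.card_biUnion_le
    have h4 : ∑ Q ∈ Ico (y + 1) (X + 1), ((Icc 1 (X / (Q * (Q - 1)))).image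
        (fun t => Q * (2 + t * (Q - 1)))).card ≤ ∑ Q ∈ Ico (y + 1) (X + 1), (X / (Q * (Q - 1))) := by
      refine Finset.sum_le_sum fun Q _ => ?_
      exact Finset.card_image_le.trans (by simp)
    exact_mod_cast h3.trans h4
  refine h2.trans ?_
  calc ∑ Q ∈ Ico (y + 1) (X + 1), ((X / (Q * (Q - 1)) : ℕ) : ℝ)
      ≤ ∑ Q ∈ Ico (y + 1) (X + 1), (X : ℝ) * (1 / ((Q : ℝ) * (Q - 1))) := by
        refine Finset.sum_le_sum fun Q hQ => ?_
        rw [mem_Ico] at hQ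
        refine Nat.cast_div_le.trans (le_of_eq ?_)
        push_cast [Nat.cast_sub (show 1 ≤ Q by omega)]
        ring
    _ = X * ∑ Q ∈ Ico (y + 1) (X + 1), 1 / ((Q : ℝ) * (Q - 1)) := by rw [Finset.mul_sum]
    _ ≤ X * (1 / y) := by
        gcongr
        exact sum_one_div_le y (X + 1) hy
    _ = X / y := by ring

/-! ### Part C: squarefree smooth numbers (Rankin) -/

lemma sum_rpow_le (Y : ℕ) : ∑ k ∈ Icc 1 Y, (k : ℝ) ^ (-(3 : ℝ) / 4) ≤ 4 * (Y : ℝ) ^ ((1 : ℝ) / 4) := by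
  induction Y with
  | zero => simp
  | succ Y ih =>
    rw [Finset.sum_Icc_succ_top (by omega)]
    refine (_root_.add_le_add ih le_rfl).trans ?_
    have hY : (0 : ℝ) ≤ Y := Nat.cast_nonneg Y
    set u : ℝ := ((Y + 1 : ℕ) : ℝ) ^ ((1 : ℝ) / 4) with hu
    set v : ℝ := (Y : ℝ) ^ ((1 : ℝ) / 4) with hv
    have hu4 : u ^ 4 = Y + 1 := by
      rw [hu, ← Real.rpow_natCast, ← Real.rpow_mul (by positivity)]
      norm_num
    have hv4 : v ^ 4 = Y := by
      rw [hv, ← Real.rpow_natCast, ← Real.rpow_mul (by positivity)]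
      norm_num
    have hu0 : 0 < u := by rw [hu]; positivity
    have hv0 : 0 ≤ v := by rw [hv]; positivity
    have hvu : v ≤ u := by
      rw [hu, hv]; apply Real.rpow_le_rpow hY (by push_cast; linarith) (by norm_num)
    have h1 : ((Y + 1 : ℕ) : ℝ) ^ (-(3 : ℝ) / 4) = 1 / u ^ 3 := by
      rw [hu, ← Real.rpow_natCast, ← Real.rpow_mul (by positivity), one_div,
        ← Real.rpow_neg (by positivity)]
      norm_num
    rw [h1]
    have h2 : 1 / u ^ 3 ≤ 4 * (u - v) := by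
      rw [div_le_iff₀ (by positivity)]
      have h3 : (u - v) * (u ^ 3 + u ^ 2 * v + u * v ^ 2 + v ^ 3) = 1 := by
        have : (u - v) * (u ^ 3 + u ^ 2 * v + u * v ^ 2 + v ^ 3) = u ^ 4 - v ^ 4 := by ring
        rw [this, hu4, hv4]; ring
      have h4 : u ^ 3 + u ^ 2 * v + u * v ^ 2 + v ^ 3 ≤ 4 * u ^ 3 := by
        have a1 : u ^ 2 * v ≤ u ^ 2 * u := by gcongr
        have a2 : u * v ^ 2 ≤ u * u ^ 2 := by gcongr
        have a3 : v ^ 3 ≤ u ^ 3 := by gcongr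
        nlinarith
      have h5 : 0 ≤ u - v := by linarith
      calc (1 : ℝ) = (u - v) * (u ^ 3 + u ^ 2 * v + u * v ^ 2 + v ^ 3) := h3.symm
        _ ≤ (u - v) * (4 * u ^ 3) := by gcongr
        _ = 4 * (u - v) * u ^ 3 := by ring
    linarith

open Classical in
lemma countC (X Y : ℕ) :
    (((Icc 1 X).filter (fun n => Squarefree n ∧ ∀ q : ℕ, q.Prime → q ∣ n → q ≤ Y)).card : ℝ)
      ≤ (X : ℝ) ^ ((3 : ℝ) / 4) * Real.exp (4 * (Y : ℝ) ^ ((1 : ℝ) / 4)) := by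
  set F := (Icc 1 X).filter (fun n => Squarefree n ∧ ∀ q : ℕ, q.Prime → q ∣ n → q ≤ Y) with hF
  have h1 : (F.card : ℝ) ≤ ∑ n ∈ F, (X : ℝ) ^ ((3 : ℝ) / 4) * ∏ p ∈ n.primeFactors, (p : ℝ) ^ (-(3 : ℝ) / 4) := by
    rw [Finset.card_eq_sum_ones]
    push_cast
    refine Finset.sum_le_sum fun n hn => ?_
    rw [hF, mem_filter, mem_Icc] at hn
    obtain ⟨⟨hn1, hnX⟩, hsq, _⟩ := hn
    have hn0 : (0 : ℝ) < n := by exact_mod_cast hn1
    rw [Real.finsetProd_rpow _ _ (fun p _ => Nat.cast_nonneg p), ← Nat.cast_prod,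
      Nat.prod_primeFactors_of_squarefree hsq]
    have h2 : (n : ℝ) ^ (-(3 : ℝ) / 4) = ((n : ℝ) ^ ((3 : ℝ) / 4))⁻¹ := by
      rw [← Real.rpow_neg hn0.le]; norm_num
    rw [h2, ← div_eq_mul_inv, one_le_div (by positivity)]
    apply Real.rpow_le_rpow hn0.le _ (by norm_num)
    exact_mod_cast hnX
  refine h1.trans ?_
  rw [← Finset.mul_sum]
  gcongr
  calc ∑ n ∈ F, ∏ p ∈ n.primeFactors, (p : ℝ) ^ (-(3 : ℝ) / 4)
      = ∑ S ∈ F.image Nat.primeFactors, ∏ p ∈ S, (p : ℝ) ^ (-(3 : ℝ) / 4) := by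
        rw [Finset.sum_image]
        intro a ha b hb hab
        rw [mem_coe, hF, mem_filter] at ha hb
        rw [← Nat.prod_primeFactors_of_squarefree ha.2.1,
          ← Nat.prod_primeFactors_of_squarefree hb.2.1, hab]
    _ ≤ ∑ S ∈ (Icc 1 Y).powerset, ∏ p ∈ S, (p : ℝ) ^ (-(3 : ℝ) / 4) := by
        apply Finset.sum_le_sum_of_subset_of_nonneg
        · intro S hS
          obtain ⟨n, hn, rfl⟩ := mem_image.mp hS
          rw [hF, mem_filter, mem_Icc] at hn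
          rw [mem_powerset]
          intro p hp
          rw [mem_Icc]
          have hpp := Nat.prime_of_mem_primeFactors hp
          exact ⟨hpp.pos, hn.2.2 p hpp (Nat.dvd_of_mem_primeFactors hp)⟩
        · intro S _ _
          exact Finset.prod_nonneg fun p _ => by positivity
    _ = ∏ p ∈ Icc 1 Y, (1 + (p : ℝ) ^ (-(3 : ℝ) / 4)) := (Finset.prod_one_add _).symm
    _ ≤ ∏ p ∈ Icc 1 Y, Real.exp ((p : ℝ) ^ (-(3 : ℝ) / 4)) := by
        apply Finset.prod_le_prod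
        · intro p _; positivity
        · intro p _
          rw [add_comm]
          exact Real.add_one_le_exp _
    _ = Real.exp (∑ p ∈ Icc 1 Y, (p : ℝ) ^ (-(3 : ℝ) / 4)) := (Real.exp_sum _ _).symm
    _ ≤ Real.exp (4 * (Y : ℝ) ^ ((1 : ℝ) / 4)) := Real.exp_le_exp.mpr (sum_rpow_le Y)

end

end Pool.Agent.Lerch
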