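import Mathlib
import Pool.Agent.Lerch.Count

/-!
# The number of primes `p ≤ x` with a prime Lerch quotient is `O(x / (log x) ^ 2)`
-/

namespace Pool.Agent.Lerch

open Finset Pool.Agent.Lib.Sieve

noncomputable section

open Classical in
/-- The odd primes `p ≤ x` whose Lerch quotient is a prime number. -/
def lerchPrimeSet (x : ℕ) : Finset ℕ :=
  (Icc 1 x).filter (fun p => p.Prime ∧ p ≠ 2 ∧ ∃ l : ℕ, l.Prime ∧ lerchQ p = (l : ℤ))

open Classical in
lemma card_lerchPrimeSet_le (x y T : ℕ) (hy : 1 ≤ y) (hT : 1 ≤ T) :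
    ((lerchPrimeSet x).card : ℝ) ≤
      (8 * zc ^ 2 * x / (Real.log (T + 1)) ^ 2 + 8 * (T : ℝ) ^ 10 + (T : ℝ) ^ 2) +
      ((x + 1 : ℕ) : ℝ) / y +
      ((x + 1 : ℕ) : ℝ) ^ ((3 : ℝ) / 4) * Real.exp (4 * (y : ℝ) ^ ((1 : ℝ) / 4)) := by
  set A := (Icc 1 x).filter (fun p => p.Prime ∧ ∃ q : ℕ, q.Prime ∧ p + 1 = 2 * q) with hA
  set B := (Icc 1 (x + 1)).filter (fun n => ∃ Q : ℕ, y < Q ∧ ∃ t : ℕ, 1 ≤ t ∧
    n = Q * (2 + t * (Q - 1))) with hB
  set D := (Icc 1 (x + 1)).filter (fun n => Squarefree n ∧ ∀ q : ℕ, q.Prime → q ∣ n → q ≤ y)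
    with hD
  have h1 : lerchPrimeSet x ⊆ A ∪ ((B ∪ D).image (fun n => n - 1)) := by
    intro p hp
    unfold lerchPrimeSet at hp
    rw [mem_filter, mem_Icc] at hp
    obtain ⟨⟨hp1, hpx⟩, hpp, hp2, l, hl, hL⟩ := hp
    obtain ⟨hsq, hdiv, _⟩ := knodel_of_prime hpp hp2 hl hL
    rw [mem_union]
    by_cases hs : ∀ q : ℕ, q.Prime → q ∣ p + 1 → q ≤ y
    · right
      rw [mem_image]
      refine ⟨p + 1, ?_, by omega⟩
      rw [mem_union]; right
      rw [hD, mem_filter, mem_Icc]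
      exact ⟨⟨by omega, by omega⟩, hsq, hs⟩
    · push Not at hs
      obtain ⟨Q, hQ, ⟨m, hm⟩, hQy⟩ := hs
      have hQd := hdiv Q hQ ⟨m, hm⟩
      have hQ2 := hQ.two_le
      have hlt := lt_of_dvd_succ hpp hp2 hQ ⟨m, hm⟩
      rcases Nat.lt_or_ge m 3 with h3 | h3
      · interval_cases m
        · omega
        · omega
        · left
          rw [hA, mem_filter, mem_Icc]
          exact ⟨⟨hp1, hpx⟩, hpp, Q, hQ, by omega⟩
      · right
        rw [mem_image]
        refine ⟨p + 1, ?_, by omega⟩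
        rw [mem_union]; left
        rw [hB, mem_filter, mem_Icc]
        refine ⟨⟨by omega, by omega⟩, Q, hQy, ?_⟩
        -- `Q - 1 ∣ m - 2`
        obtain ⟨R, rfl⟩ : ∃ R, Q = R + 1 := ⟨Q - 1, by omega⟩
        obtain ⟨k, rfl⟩ : ∃ k, m = k + 2 := ⟨m - 2, by omega⟩
        have e1 : R + 1 - 1 = R := by omega
        rw [e1] at hQd ⊢
        have e2 : p - 1 = R * (k + 2) + k := by
          have : p + 1 = R * (k + 2) + (k + 2) := by rw [hm]; ring
          omega
        rw [e2] at hQd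
        have e3 : R ∣ k := (Nat.dvd_add_right (Dvd.intro _ rfl)).mp hQd
        obtain ⟨t, ht⟩ := e3
        refine ⟨t, ?_, ?_⟩
        · rcases Nat.eq_zero_or_pos t with h0 | h0
          · rw [h0] at ht; omega
          · exact h0
        · rw [hm, ht]; ring
  have h2 := Finset.card_le_card h1
  have h3 : (lerchPrimeSet x).card ≤ A.card + (B.card + D.card) :=
    h2.trans ((Finset.card_union_le _ _).trans
      (by gcongr; exact Finset.card_image_le.trans (Finset.card_union_le _ _)))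
  have h4 : ((lerchPrimeSet x).card : ℝ) ≤ (A.card : ℝ) + ((B.card : ℝ) + (D.card : ℝ)) := by
    exact_mod_cast h3
  have a1 := countA x T hT
  have a2 := countB (x + 1) y hy
  have a3 := countC (x + 1) y
  rw [← hA] at a1
  rw [← hB] at a2
  rw [← hD] at a3
  linarith

lemma sq_le_exp (L : ℝ) (hL : 0 ≤ L) : L ^ 2 ≤ 128 * Real.exp (L / 8) := by
  have h := Real.quadratic_le_exp_of_nonneg (x := L / 8) (by positivity)
  nlinarith

theorem card_lerchPrimeSet_bound : ∃ C : ℝ, 0 < C ∧ ∀ x : ℕ, 2 ≤ x →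
    ((lerchPrimeSet x).card : ℝ) ≤ C * x / (Real.log x) ^ 2 := by
  refine ⟨3200 * zc ^ 2 + 2 + 128 * (9 + 2 * Real.exp 36), ?_, ?_⟩
  · have := zc_pos
    positivity
  intro x hx
  have hx1 : (1 : ℝ) < x := by exact_mod_cast (by omega : 1 < x)
  have hx0 : (0 : ℝ) < x := by linarith
  set L := Real.log x with hL
  have hL0 : 0 < L := Real.log_pos hx1
  have hxe : (x : ℝ) = Real.exp L := (Real.exp_log hx0).symm
  -- parameters
  set T := ⌊Real.exp (L / 20)⌋₊ with hTdef
  set y := ⌈L ^ 2⌉₊ with hydef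
  have hT : 1 ≤ T := by
    rw [hTdef, Nat.one_le_floor_iff]
    exact Real.one_le_exp (by positivity)
  have hy : 1 ≤ y := by
    rw [hydef, Nat.one_le_ceil_iff]; positivity
  have h := card_lerchPrimeSet_le x y T hy hT
  have hT1 : (T : ℝ) ≤ Real.exp (L / 20) := Nat.floor_le (Real.exp_pos _).le
  have hT2 : Real.exp (L / 20) ≤ T + 1 := (Nat.lt_floor_add_one _).le
  have hT0 : (0 : ℝ) ≤ T := Nat.cast_nonneg T
  have hlogT : L / 20 ≤ Real.log (T + 1) := by
    rw [Real.le_log_iff_exp_le (by linarith)]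
    exact hT2
  have hy1 : L ^ 2 ≤ y := Nat.le_ceil _
  have hy2 : (y : ℝ) ≤ L ^ 2 + 1 := (Nat.ceil_lt_add_one (by positivity)).le
  have hz := zc_pos
  -- x ^ (7/8)
  have hsq := sq_le_exp L hL0.le
  have key : Real.exp (7 * L / 8) ≤ 128 * (x / L ^ 2) := by
    rw [← mul_div_assoc, le_div_iff₀ (by positivity), hxe]
    calc Real.exp (7 * L / 8) * L ^ 2 ≤ Real.exp (7 * L / 8) * (128 * Real.exp (L / 8)) := by gcongr
      _ = 128 * (Real.exp (7 * L / 8) * Real.exp (L / 8)) := by ring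
      _ = 128 * Real.exp L := by rw [← Real.exp_add]; congr 2; ring
  -- the terms
  have t1 : 8 * zc ^ 2 * x / (Real.log (T + 1)) ^ 2 ≤ 3200 * zc ^ 2 * (x / L ^ 2) := by
    calc 8 * zc ^ 2 * x / (Real.log (T + 1)) ^ 2 ≤ 8 * zc ^ 2 * x / (L / 20) ^ 2 := by gcongr
      _ = 3200 * zc ^ 2 * (x / L ^ 2) := by field_simp; ring
  have t2 : 8 * (T : ℝ) ^ 10 + (T : ℝ) ^ 2 ≤ 9 * Real.exp (7 * L / 8) := by
    have b1 : (T : ℝ) ^ 10 ≤ Real.exp (7 * L / 8) := by
      calc (T : ℝ) ^ 10 ≤ (Real.exp (L / 20)) ^ 10 := by gcongr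
        _ = Real.exp (L / 2) := by rw [← Real.exp_nat_mul]; congr 1; push_cast; ring
        _ ≤ _ := Real.exp_le_exp.mpr (by linarith)
    have b2 : (T : ℝ) ^ 2 ≤ Real.exp (7 * L / 8) := by
      calc (T : ℝ) ^ 2 ≤ (Real.exp (L / 20)) ^ 2 := by gcongr
        _ = Real.exp (L / 10) := by rw [← Real.exp_nat_mul]; congr 1; push_cast; ring
        _ ≤ _ := Real.exp_le_exp.mpr (by linarith)
    linarith
  have t3 : ((x + 1 : ℕ) : ℝ) / y ≤ 2 * (x / L ^ 2) := by
    calc ((x + 1 : ℕ) : ℝ) / y ≤ (2 * x) / L ^ 2 := by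
          gcongr
          push_cast; linarith
      _ = 2 * (x / L ^ 2) := by ring
  have t4 : ((x + 1 : ℕ) : ℝ) ^ ((3 : ℝ) / 4) * Real.exp (4 * (y : ℝ) ^ ((1 : ℝ) / 4))
      ≤ 2 * Real.exp 36 * Real.exp (7 * L / 8) := by
    have c1 : ((x + 1 : ℕ) : ℝ) ^ ((3 : ℝ) / 4) ≤ 2 * Real.exp (3 * L / 4) := by
      calc ((x + 1 : ℕ) : ℝ) ^ ((3 : ℝ) / 4) ≤ (2 * x : ℝ) ^ ((3 : ℝ) / 4) := by
            apply Real.rpow_le_rpow (by positivity) _ (by norm_num)
            push_cast; linarith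
        _ = 2 ^ ((3 : ℝ) / 4) * (x : ℝ) ^ ((3 : ℝ) / 4) :=
            Real.mul_rpow (by norm_num) hx0.le
        _ ≤ 2 * Real.exp (3 * L / 4) := by
            gcongr
            · calc (2 : ℝ) ^ ((3 : ℝ) / 4) ≤ 2 ^ (1 : ℝ) :=
                    Real.rpow_le_rpow_of_exponent_le (by norm_num) (by norm_num)
                _ = 2 := Real.rpow_one 2
            · rw [Real.rpow_def_of_pos hx0]
              apply Real.exp_le_exp.mpr
              rw [← hL]; linarith
    have c2 : (y : ℝ) ^ ((1 : ℝ) / 4) ≤ Real.sqrt L + 1 := by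
      have s0 := Real.sqrt_nonneg L
      have s1 := Real.sq_sqrt hL0.le
      calc (y : ℝ) ^ ((1 : ℝ) / 4) ≤ ((Real.sqrt L + 1) ^ 4) ^ ((1 : ℝ) / 4) := by
            apply Real.rpow_le_rpow (Nat.cast_nonneg y) _ (by norm_num)
            refine hy2.trans ?_
            have : (Real.sqrt L + 1) ^ 4 = (Real.sqrt L ^ 2) ^ 2 + 4 * Real.sqrt L ^ 3
              + 6 * Real.sqrt L ^ 2 + 4 * Real.sqrt L + 1 := by ring
            rw [this, s1]
            have : 0 ≤ Real.sqrt L ^ 3 := by positivity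
            nlinarith
        _ = Real.sqrt L + 1 := by
            rw [← Real.rpow_natCast, ← Real.rpow_mul (by positivity)]
            norm_num
    have c3 : 4 * Real.sqrt L ≤ L / 8 + 32 := by
      have s1 := Real.sq_sqrt hL0.le
      nlinarith [sq_nonneg (Real.sqrt L - 16)]
    calc _ ≤ (2 * Real.exp (3 * L / 4)) * Real.exp (4 * (Real.sqrt L + 1)) := by
          gcongr
      _ ≤ (2 * Real.exp (3 * L / 4)) * Real.exp (L / 8 + 36) := by
          gcongr
          linarith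
      _ = 2 * Real.exp 36 * Real.exp (7 * L / 8) := by
          rw [Real.exp_add]
          have : Real.exp (7 * L / 8) = Real.exp (3 * L / 4) * Real.exp (L / 8) := by
            rw [← Real.exp_add]; congr 1; ring
          rw [this]; ring
  have hfin : (3200 * zc ^ 2 + 2 + 128 * (9 + 2 * Real.exp 36)) * x / L ^ 2
      = 3200 * zc ^ 2 * (x / L ^ 2) + 2 * (x / L ^ 2)
        + (9 + 2 * Real.exp 36) * (128 * (x / L ^ 2)) := by ring
  rw [hfin]
  have h36 : 0 ≤ 9 + 2 * Real.exp 36 := by positivity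
  have k2 := mul_le_mul_of_nonneg_left key h36
  nlinarith [t1, t2, t3, t4, h, k2]

/-- Relative density zero. -/
theorem tendsto_lerchPrimeSet :
    Filter.Tendsto (fun x : ℕ => ((lerchPrimeSet x).card : ℝ) / (Nat.primeCounting x : ℝ))
      Filter.atTop (nhds 0) := by
  obtain ⟨C, hC, hb⟩ := card_lerchPrimeSet_bound
  have hpi : ∀ᶠ x : ℕ in Filter.atTop,
      (x : ℝ) / (4 * Real.log x) ≤ (Nat.primeCounting x : ℝ) := by
    filter_upwards [Filter.eventually_ge_atTop 16] with x hx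
    have hx16 : (16 : ℝ) ≤ x := by exact_mod_cast hx
    have hlog : 0 < Real.log x := Real.log_pos (by linarith)
    refine le_trans ?_ (Chebyshev.pi_ge x)
    rw [div_le_div_iff₀ (by positivity) hlog]
    have h2 : (0.6931471803 : ℝ) < Real.log 2 := Real.log_two_gt_d9
    have h3 : Real.log (x + 1) ≤ x / 4 := by
      have h4 : Real.log (x + 1) = Real.log ((x + 1) / 8) + 3 * Real.log 2 := by
        have : ((x : ℝ) + 1) = (x + 1) / 8 * 2 ^ 3 := by ring
        conv_lhs => rw [this]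
        rw [Real.log_mul (by positivity) (by norm_num), Real.log_pow]
        push_cast; ring
      have h5 := Real.log_le_sub_one_of_pos (x := ((x : ℝ) + 1) / 8) (by positivity)
      have h6 : Real.log 2 < 0.6931471808 := Real.log_two_lt_d9
      rw [h4]; linarith
    have h7 : (x : ℝ) / 4 ≤ x * Real.log 2 - Real.log (x + 1) := by nlinarith
    nlinarith
  have hlim : Filter.Tendsto (fun x : ℕ => 4 * C / Real.log (x : ℝ)) Filter.atTop (nhds 0) :=
    Filter.Tendsto.const_div_atTop (Real.tendsto_log_atTop.comp tendsto_natCast_atTop_atTop) _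
  refine squeeze_zero' (Filter.Eventually.of_forall fun x => by positivity) ?_ hlim
  filter_upwards [hpi, Filter.eventually_ge_atTop 2] with x hx hx2
  have hx0 : (0 : ℝ) < x := by exact_mod_cast (by omega : 0 < x)
  have hx1 : (1 : ℝ) < x := by exact_mod_cast (by omega : 1 < x)
  have hlog : 0 < Real.log x := Real.log_pos hx1
  have hpos : 0 < (x : ℝ) / (4 * Real.log x) := by positivity
  calc ((lerchPrimeSet x).card : ℝ) / (Nat.primeCounting x : ℝ)
      ≤ (C * x / (Real.log x) ^ 2) / ((x : ℝ) / (4 * Real.log x)) := by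
        gcongr
        exact hb x hx2
    _ = 4 * C / Real.log (x : ℝ) := by field_simp

end

end Pool.Agent.Lerch
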